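import Pool.Agent.H31.Rigid

set_option autoImplicit false

open Pool.Agent.H31

theorem Pool.Agent.Results.MP_fef6c2_gt.Yes.result :
    ∃ X : Set ℂ, LocallyCompactSpace X ∧ IsConnected Xᶜ ∧ ¬ IsCompact X ∧ ¬ IsOpen X ∧
      ∀ f : X → ℂ, Continuous f → Function.Injective f → Topology.IsEmbedding f :=
  ⟨Rigid.X, Rigid.X_lc, Rigid.X_conn, Rigid.X_nc, Rigid.X_no, Rigid.rigid⟩
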